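import Pool.Agent.BSE.Stmts
import Pool.Agent.Helper76_BSE.Cer

/-!
# BSE, row MO2: the fourth moment of `∑ |A_jb|² a_j`
-/

open MeasureTheory Matrix Finset
open scoped ComplexConjugate

namespace Pool.Agent.BSE.H9

open Pool.Agent.Helper64_FR

variable {n : ℕ}

/-- the squared entry -/
noncomputable def sq (B : Finset (Fin n)) (p b : Fin n) (A : UB B) : ℝ :=
  ‖((A : UU n) : Matrix (Fin n) (Fin n) ℂ) p b‖ ^ 2

theorem cont_sq (B : Finset (Fin n)) (p b : Fin n) : Continuous (sq B p b) := by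
  have h1 : Continuous fun A : UU n => (A : Matrix (Fin n) (Fin n) ℂ) p b :=
    (continuous_apply_apply p b).comp continuous_subtype_val
  exact ((h1.comp continuous_subtype_val).norm).pow 2

/-- the polynomial in the power sums -/
noncomputable def pp (B : Finset (Fin n)) (a : Fin n → ℝ) : ℝ :=
  (∑ j ∈ B, a j) ^ 4 + 6 * (∑ j ∈ B, a j) ^ 2 * (∑ j ∈ B, a j ^ 2) +
    3 * (∑ j ∈ B, a j ^ 2) ^ 2 + 8 * (∑ j ∈ B, a j) * (∑ j ∈ B, a j ^ 3) +
    6 * ∑ j ∈ B, a j ^ 4

/-- expansion of a fourth power -/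
theorem pow4 (B : Finset (Fin n)) (x : Fin n → ℝ) :
    (∑ j ∈ B, x j) ^ 4 = ∑ i ∈ B, ∑ j ∈ B, ∑ k ∈ B, ∑ l ∈ B, x i * x j * x k * x l := by
  have h : (∑ j ∈ B, x j) ^ 4 =
      (∑ j ∈ B, x j) * ((∑ j ∈ B, x j) * ((∑ j ∈ B, x j) * (∑ j ∈ B, x j))) := by ring
  rw [h]
  simp only [Finset.sum_mul, Finset.mul_sum]
  refine Finset.sum_congr rfl fun i _ => Finset.sum_congr rfl fun j _ =>
    Finset.sum_congr rfl fun k _ => Finset.sum_congr rfl fun l _ => ?_
  ring

/-- the inner sum against one delta -/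
theorem in1 (B : Finset (Fin n)) (x : Fin n → ℝ) {i : Fin n} (hi : i ∈ B) :
    ∑ l ∈ B, x l * (if i = l then (1 : ℝ) else 0) = x i := by
  simp [hi]

theorem sum_l (B : Finset (Fin n)) (a : Fin n → ℝ) {i j k : Fin n} (hi : i ∈ B) (hj : j ∈ B)
    (hk : k ∈ B) :
    ∑ l ∈ B, a l * per i j k l =
      (1 + (if i = j then 1 else 0) + (if i = k then 1 else 0) + (if j = k then 1 else 0) +
        (if i = j ∧ j = k then 2 else 0)) * (∑ l ∈ B, a l) +
      (a i + a j + a k + (if i = j then a k else 0) + (if i = k then a j else 0) +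
        (if j = k then a i else 0) + (if i = j then 2 * a j else 0) +
        (if i = k then 2 * a k else 0) + (if j = k then 2 * a k else 0) +
        (if i = j ∧ j = k then 6 * a k else 0)) := by
  have h : ∀ l, a l * per i j k l =
      (1 + (if i = j then 1 else 0) + (if i = k then 1 else 0) + (if j = k then 1 else 0) +
        (if i = j ∧ j = k then 2 else 0)) * a l +
      (a l * (if i = l then 1 else 0) + a l * (if j = l then 1 else 0) +
        a l * (if k = l then 1 else 0) +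
        (if i = j then 1 else 0) * (a l * (if k = l then 1 else 0)) +
        (if i = k then 1 else 0) * (a l * (if j = l then 1 else 0)) +
        (if j = k then 1 else 0) * (a l * (if i = l then 1 else 0)) +
        (if i = j then 2 else 0) * (a l * (if j = l then 1 else 0)) +
        (if i = k then 2 else 0) * (a l * (if k = l then 1 else 0)) +
        (if j = k then 2 else 0) * (a l * (if k = l then 1 else 0)) +
        (if i = j ∧ j = k then 6 else 0) * (a l * (if k = l then 1 else 0))) := by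
    intro l
    have hc : ∀ x y : Fin n, (x = y) = (y = x) := fun x y => propext eq_comm
    unfold per
    by_cases h1 : i = j <;> by_cases h2 : i = k <;> by_cases h3 : i = l <;>
      by_cases h4 : j = k <;> by_cases h5 : j = l <;> by_cases h6 : k = l <;>
      simp [h1, h2, h3, h4, h5, h6, hc l k, hc l j] <;> ring1
  rw [Finset.sum_congr rfl fun l _ => h l]
  simp only [Finset.sum_add_distrib, ← Finset.mul_sum, in1 B a hi, in1 B a hj, in1 B a hk]
  simp only [ite_mul, one_mul, zero_mul]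

theorem sum_k (B : Finset (Fin n)) (a : Fin n → ℝ) {i j : Fin n} (hi : i ∈ B) (hj : j ∈ B) :
    ∑ k ∈ B, a k * ∑ l ∈ B, a l * per i j k l =
      (∑ l ∈ B, a l) ^ 2 + 2 * (a i + a j) * (∑ l ∈ B, a l) + (∑ l ∈ B, a l ^ 2) +
      2 * a i * a j + 2 * a i ^ 2 + 2 * a j ^ 2 +
      (if i = j then 1 else 0) * ((∑ l ∈ B, a l) ^ 2 + 4 * a j * (∑ l ∈ B, a l) +
        (∑ l ∈ B, a l ^ 2) + 6 * a j ^ 2) := by
  have h : ∀ k ∈ B, a k * ∑ l ∈ B, a l * per i j k l =
      ((1 + (if i = j then 1 else 0)) * (∑ l ∈ B, a l) + a i + a j +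
        (if i = j then 2 else 0) * a j) * a k +
      (1 + (if i = j then 1 else 0)) * a k ^ 2 +
      (∑ l ∈ B, a l) * (a k * (if i = k then 1 else 0)) +
      (∑ l ∈ B, a l) * (a k * (if j = k then 1 else 0)) +
      ((if i = j then 2 else 0) * (∑ l ∈ B, a l)) * (a k * (if j = k then 1 else 0)) +
      a j * (a k * (if i = k then 1 else 0)) + a i * (a k * (if j = k then 1 else 0)) +
      (2 * a i) * (a k * (if i = k then 1 else 0)) +
      (2 * a j) * (a k * (if j = k then 1 else 0)) +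
      ((if i = j then 6 else 0) * a j) * (a k * (if j = k then 1 else 0)) := by
    intro k hk
    rw [sum_l B a hi hj hk]
    have hc : ∀ x y : Fin n, (x = y) = (y = x) := fun x y => propext eq_comm
    by_cases h1 : i = j <;> by_cases h2 : i = k <;> by_cases h4 : j = k <;>
      simp [h1, h2, h4, hc k j] <;> ring1
  rw [Finset.sum_congr rfl h]
  simp only [Finset.sum_add_distrib, ← Finset.mul_sum, in1 B a hi, in1 B a hj]
  by_cases h1 : i = j <;> simp [h1] <;> ring1

theorem sum_j (B : Finset (Fin n)) (a : Fin n → ℝ) {i : Fin n} (hi : i ∈ B) :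
    ∑ j ∈ B, a j * ∑ k ∈ B, a k * ∑ l ∈ B, a l * per i j k l =
      (∑ l ∈ B, a l) ^ 3 + 3 * (∑ l ∈ B, a l) * (∑ l ∈ B, a l ^ 2) + 2 * (∑ l ∈ B, a l ^ 3) +
      a i * (3 * (∑ l ∈ B, a l) ^ 2 + 3 * (∑ l ∈ B, a l ^ 2)) +
      6 * a i ^ 2 * (∑ l ∈ B, a l) + 6 * a i ^ 3 := by
  have h : ∀ j ∈ B, a j * ∑ k ∈ B, a k * ∑ l ∈ B, a l * per i j k l =
      ((∑ l ∈ B, a l) ^ 2 + 2 * a i * (∑ l ∈ B, a l) + (∑ l ∈ B, a l ^ 2) + 2 * a i ^ 2) * a j +
      (2 * (∑ l ∈ B, a l) + 2 * a i) * a j ^ 2 + 2 * a j ^ 3 +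
      ((∑ l ∈ B, a l) ^ 2 + 4 * a i * (∑ l ∈ B, a l) + (∑ l ∈ B, a l ^ 2) + 6 * a i ^ 2) *
        (a j * (if i = j then 1 else 0)) := by
    intro j hj
    rw [sum_k B a hi hj]
    by_cases h1 : i = j <;> simp [h1] <;> ring1
  rw [Finset.sum_congr rfl h]
  simp only [Finset.sum_add_distrib, ← Finset.mul_sum, in1 B a hi]
  ring

/-- the sum of `per` over all words -/
theorem sum_per (B : Finset (Fin n)) (a : Fin n → ℝ) :
    ∑ i ∈ B, ∑ j ∈ B, ∑ k ∈ B, ∑ l ∈ B, a i * a j * a k * a l * per i j k l = pp B a := by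
  have h : ∀ i ∈ B, ∑ j ∈ B, ∑ k ∈ B, ∑ l ∈ B, a i * a j * a k * a l * per i j k l =
      ((∑ l ∈ B, a l) ^ 3 + 3 * (∑ l ∈ B, a l) * (∑ l ∈ B, a l ^ 2) +
        2 * (∑ l ∈ B, a l ^ 3)) * a i +
      (3 * (∑ l ∈ B, a l) ^ 2 + 3 * (∑ l ∈ B, a l ^ 2)) * a i ^ 2 +
      (6 * (∑ l ∈ B, a l)) * a i ^ 3 + 6 * a i ^ 4 := by
    intro i hi
    have h1 : ∑ j ∈ B, ∑ k ∈ B, ∑ l ∈ B, a i * a j * a k * a l * per i j k l =
        a i * ∑ j ∈ B, a j * ∑ k ∈ B, a k * ∑ l ∈ B, a l * per i j k l := by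
      simp only [Finset.mul_sum]
      refine Finset.sum_congr rfl fun j _ => Finset.sum_congr rfl fun k _ =>
        Finset.sum_congr rfl fun l _ => ?_
      ring
    rw [h1, sum_j B a hi]
    ring
  rw [Finset.sum_congr rfl h]
  simp only [Finset.sum_add_distrib, ← Finset.mul_sum]
  unfold pp
  ring

theorem int_cont (B : Finset (Fin n)) {f : UB B → ℝ} (hf : Continuous f) :
    Integrable f (haarB B) := by
  have := H76.haarB_prob B
  exact hf.integrable_of_hasCompactSupport (HasCompactSupport.of_compactSpace f)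

/-- the integral in terms of the constant of MO1 -/
theorem int_pp (B : Finset (Fin n)) (b : Fin n) (κ : ℝ)
    (h : ∀ i ∈ B, ∀ j ∈ B, ∀ k ∈ B, ∀ l ∈ B,
      ∫ A : UB B, ‖((A : UU n) : Matrix (Fin n) (Fin n) ℂ) i b‖ ^ 2 *
        ‖((A : UU n) : Matrix (Fin n) (Fin n) ℂ) j b‖ ^ 2 *
        ‖((A : UU n) : Matrix (Fin n) (Fin n) ℂ) k b‖ ^ 2 *
        ‖((A : UU n) : Matrix (Fin n) (Fin n) ℂ) l b‖ ^ 2 ∂(haarB B) = κ * per i j k l)
    (a : Fin n → ℝ) :
    ∫ A : UB B, (∑ j ∈ B, ‖((A : UU n) : Matrix (Fin n) (Fin n) ℂ) j b‖ ^ 2 * a j) ^ 4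
      ∂(haarB B) = κ * pp B a := by
  have h1 : ∀ A : UB B,
      (∑ j ∈ B, ‖((A : UU n) : Matrix (Fin n) (Fin n) ℂ) j b‖ ^ 2 * a j) ^ 4 =
      ∑ i ∈ B, ∑ j ∈ B, ∑ k ∈ B, ∑ l ∈ B, (a i * a j * a k * a l) *
        (sq B i b A * sq B j b A * sq B k b A * sq B l b A) := by
    intro A
    rw [pow4]
    refine Finset.sum_congr rfl fun i _ => Finset.sum_congr rfl fun j _ =>
      Finset.sum_congr rfl fun k _ => Finset.sum_congr rfl fun l _ => ?_
    unfold sq
    ring
  have hi4 : ∀ i j k l : Fin n, Integrable (fun A : UB B => (a i * a j * a k * a l) *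
      (sq B i b A * sq B j b A * sq B k b A * sq B l b A)) (haarB B) := fun i j k l =>
    int_cont B (continuous_const.mul ((((cont_sq B i b).mul (cont_sq B j b)).mul
      (cont_sq B k b)).mul (cont_sq B l b)))
  simp only [h1]
  rw [integral_finsetSum _ fun i _ => integrable_finsetSum _ fun j _ =>
    integrable_finsetSum _ fun k _ => integrable_finsetSum _ fun l _ => hi4 i j k l,
    ← sum_per, Finset.mul_sum]
  refine Finset.sum_congr rfl fun i hi => ?_
  rw [integral_finsetSum _ fun j _ => integrable_finsetSum _ fun k _ =>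
    integrable_finsetSum _ fun l _ => hi4 i j k l, Finset.mul_sum]
  refine Finset.sum_congr rfl fun j hj => ?_
  rw [integral_finsetSum _ fun k _ => integrable_finsetSum _ fun l _ => hi4 i j k l,
    Finset.mul_sum]
  refine Finset.sum_congr rfl fun k hk => ?_
  rw [integral_finsetSum _ fun l _ => hi4 i j k l, Finset.mul_sum]
  refine Finset.sum_congr rfl fun l hl => ?_
  rw [integral_const_mul]
  have h2 := h i hi j hj k hk l hl
  have h3 : ∫ A : UB B, sq B i b A * sq B j b A * sq B k b A * sq B l b A ∂(haarB B) =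
      κ * per i j k l := h2
  rw [h3]
  ring

theorem mo2 (mo1 : MO1Stmt) : MO2Stmt := by
  intro n B b hb a
  obtain ⟨κ, hκ⟩ := mo1 n B b hb
  have h1 := int_pp B b κ hκ a
  have h2 := int_pp B b κ hκ (fun _ => 1)
  have h3 : ∀ A : UB B,
      (∑ j ∈ B, ‖((A : UU n) : Matrix (Fin n) (Fin n) ℂ) j b‖ ^ 2 * (fun _ => (1 : ℝ)) j) ^ 4 =
      1 := by
    intro A
    simp only [mul_one]
    rw [H76.col_one B hb A]
    norm_num
  simp only [h3] at h2
  have := H76.haarB_prob B
  rw [integral_const, probReal_univ, smul_eq_mul, mul_one] at h2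
  have h4 : pp B (fun _ => (1 : ℝ)) =
      (B.card : ℝ) * (B.card + 1) * (B.card + 2) * (B.card + 3) := by
    unfold pp
    simp only [one_pow, Finset.sum_const, nsmul_eq_mul, mul_one]
    ring
  rw [h4] at h2
  have h5 : (B.card : ℝ) * (B.card + 1) * (B.card + 2) * (B.card + 3) ≠ 0 := by
    intro h
    rw [h, mul_zero] at h2
    exact one_ne_zero h2
  rw [h1]
  have h6 : q4 B a = pp B a / ((B.card : ℝ) * (B.card + 1) * (B.card + 2) * (B.card + 3)) := rfl
  rw [h6, eq_div_iff h5]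
  calc κ * pp B a * ((B.card : ℝ) * (B.card + 1) * (B.card + 2) * (B.card + 3)) =
      κ * ((B.card : ℝ) * (B.card + 1) * (B.card + 2) * (B.card + 3)) * pp B a := by ring
    _ = pp B a := by rw [← h2, one_mul]

end Pool.Agent.BSE.H9
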